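import Mathlib

set_option autoImplicit false

open MeasureTheory Set

namespace Pool.Agent.H966Z.Kano

def rx : Fin 4 → ℕ := ![0, 1, 2, 3]
def ry : Fin 4 → ℕ := ![0, 2, 1, 3]

/-- the four open unit squares -/
def blob (i : Fin 4) : Set (ℝ × ℝ) :=
  Ioo (rx i : ℝ) (rx i + 1) ×ˢ Ioo (ry i : ℝ) (ry i + 1)

def btw (r : Fin 4 → ℕ) (a b c : Fin 4) : Prop := (r a < r b ∧ r b < r c) ∨ (r c < r b ∧ r b < r a)

instance (r : Fin 4 → ℕ) (a b c : Fin 4) : Decidable (btw r a b c) := by
  unfold btw; infer_instance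

theorem comb : ∀ a b c d : Fin 4, a ≠ b → a ≠ c → a ≠ d → b ≠ c → b ≠ d → c ≠ d →
    ¬ (btw ry a b c ∧ btw rx b c d) ∧ ¬ (btw rx a b c ∧ btw ry b c d) := by
  decide

theorem rx_inj : ∀ a b : Fin 4, rx a = rx b → a = b := by decide
theorem ry_inj : ∀ a b : Fin 4, ry a = ry b → a = b := by decide

theorem nat_lt_of {m n : ℕ} {x y : ℝ} (hx : x ∈ Ioo (m : ℝ) (m + 1)) (hy : y ∈ Ioo (n : ℝ) (n + 1))
    (hxy : x ≤ y) (hne : m ≠ n) : m < n := by
  have h1 : (m : ℝ) < n + 1 := by linarith [hx.1, hy.2]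
  have h2 : m < n + 1 := by exact_mod_cast h1
  omega

theorem x_lt {a b : Fin 4} {p q : ℝ × ℝ} (hp : p ∈ blob a) (hq : q ∈ blob b) (hab : a ≠ b)
    (h : p.1 ≤ q.1) : rx a < rx b :=
  nat_lt_of hp.1 hq.1 h (fun e => hab (rx_inj _ _ e))

theorem y_lt {a b : Fin 4} {p q : ℝ × ℝ} (hp : p ∈ blob a) (hq : q ∈ blob b) (hab : a ≠ b)
    (h : p.2 ≤ q.2) : ry a < ry b :=
  nat_lt_of hp.2 hq.2 h (fun e => hab (ry_inj _ _ e))

theorem x_ne {a b : Fin 4} {p q : ℝ × ℝ} (hp : p ∈ blob a) (hq : q ∈ blob b) (hab : a ≠ b) :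
    p.1 ≠ q.1 := fun e => by
  have h1 := x_lt hp hq hab e.le
  have h2 := x_lt hq hp hab.symm e.ge
  omega

theorem y_ne {a b : Fin 4} {p q : ℝ × ℝ} (hp : p ∈ blob a) (hq : q ∈ blob b) (hab : a ≠ b) :
    p.2 ≠ q.2 := fun e => by
  have h1 := y_lt hp hq hab e.le
  have h2 := y_lt hq hp hab.symm e.ge
  omega

theorem blob_open (i : Fin 4) : IsOpen (blob i) := isOpen_Ioo.prod isOpen_Ioo

theorem blob_preconn (i : Fin 4) : IsPreconnected (blob i) :=
  isPreconnected_Ioo.prod isPreconnected_Ioo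

theorem vol_blob (i : Fin 4) : volume (blob i) = 1 := by
  unfold blob
  rw [Measure.volume_eq_prod, Measure.prod_prod]
  simp

/-- the measures -/
noncomputable def mu (i : Fin 4) : Measure (ℝ × ℝ) := volume.restrict (blob i)

theorem mu_univ (i : Fin 4) : mu i univ = 1 := by
  unfold mu
  rw [Measure.restrict_apply MeasurableSet.univ, univ_inter, vol_blob]

theorem mu_fin (i : Fin 4) : IsFiniteMeasure (mu i) := ⟨by rw [mu_univ]; simp⟩

theorem mu_ac (i : Fin 4) : mu i ≪ volume := Measure.absolutelyContinuous_of_le Measure.restrict_le_self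

/-- an open set that halves `mu i` has a frontier point in the square -/
theorem hit {U : Set (ℝ × ℝ)} (hU : IsOpen U) (i : Fin 4) (h : mu i U = mu i univ / 2) :
    ∃ p ∈ blob i, p ∈ frontier U := by
  by_contra hcon
  push Not at hcon
  rw [mu_univ] at h
  have hsub : blob i ⊆ U ∪ (closure U)ᶜ := by
    intro p hp
    have := hcon p hp
    rw [hU.frontier_eq] at this
    by_cases h1 : p ∈ U
    · exact Or.inl h1
    · right
      intro h2
      exact this ⟨h2, h1⟩
  have hdisj : Disjoint U (closure U)ᶜ :=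
    disjoint_compl_right.mono_left subset_closure
  have hm : mu i U = volume (U ∩ blob i) := by
    unfold mu
    rw [Measure.restrict_apply hU.measurableSet]
  rcases (blob_preconn i).subset_or_subset hU isClosed_closure.isOpen_compl hdisj hsub with h1 | h1
  · rw [hm, inter_eq_right.mpr h1, vol_blob] at h
    have h2 := congrArg ENNReal.toReal h
    norm_num at h2
  · have : U ∩ blob i = ∅ := by
      apply eq_empty_of_forall_notMem
      intro p hp
      exact h1 hp.2 (subset_closure hp.1)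
    rw [hm, this] at h
    simp at h
    exact absurd h.symm (by norm_num)

/-- on a piece, the path is horizontal or vertical and monotone -/
theorem piece {f : ℝ → ℝ × ℝ} (hc : Continuous f) (hi : Function.Injective f) {a t b : ℝ}
    (hat : a < t) (htb : t < b)
    (h : ∀ x ∈ Icc a b, ∀ y ∈ Icc a b, (f x).1 = (f y).1 ∨ (f x).2 = (f y).2) :
    ((f a).1 = (f t).1 ∧ (f b).1 = (f t).1 ∧
      (((f a).2 ≤ (f t).2 ∧ (f t).2 ≤ (f b).2) ∨ ((f b).2 ≤ (f t).2 ∧ (f t).2 ≤ (f a).2))) ∨
    ((f a).2 = (f t).2 ∧ (f b).2 = (f t).2 ∧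
      (((f a).1 ≤ (f t).1 ∧ (f t).1 ≤ (f b).1) ∨ ((f b).1 ≤ (f t).1 ∧ (f t).1 ≤ (f a).1))) := by
  have hab : a < b := hat.trans htb
  have ha : a ∈ Icc a b := ⟨le_rfl, hab.le⟩
  have hb : b ∈ Icc a b := ⟨hab.le, le_rfl⟩
  have ht : t ∈ Icc a b := ⟨hat.le, htb.le⟩
  have hne : f a ≠ f b := fun e => hab.ne (hi e)
  rcases h a ha b hb with h1 | h1
  · left
    have h2 : (f a).2 ≠ (f b).2 := fun e => hne (Prod.ext h1 e)
    have hall : ∀ x ∈ Icc a b, (f x).1 = (f a).1 := by
      intro x hx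
      rcases h x hx a ha with e | e
      · exact e
      · rcases h x hx b hb with e' | e'
        · rw [e', h1]
        · exact absurd (e.symm.trans e') h2
    have hinj : InjOn (fun x => (f x).2) (Icc a b) := by
      intro x hx y hy e
      exact hi (Prod.ext ((hall x hx).trans (hall y hy).symm) e)
    refine ⟨(hall t ht).symm, (hall b hb).trans (hall t ht).symm, ?_⟩
    rcases ContinuousOn.strictMonoOn_of_injOn_Icc' hab.le
      (continuous_snd.comp hc).continuousOn hinj with hm | hm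
    · exact Or.inl ⟨(hm ha ht hat).le, (hm ht hb htb).le⟩
    · exact Or.inr ⟨(hm ht hb htb).le, (hm ha ht hat).le⟩
  · right
    have h2 : (f a).1 ≠ (f b).1 := fun e => hne (Prod.ext e h1)
    have hall : ∀ x ∈ Icc a b, (f x).2 = (f a).2 := by
      intro x hx
      rcases h x hx a ha with e | e
      · rcases h x hx b hb with e' | e'
        · exact absurd (e.symm.trans e') h2
        · rw [e', h1]
      · exact e
    have hinj : InjOn (fun x => (f x).1) (Icc a b) := by
      intro x hx y hy e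
      exact hi (Prod.ext e ((hall x hx).trans (hall y hy).symm))
    refine ⟨(hall t ht).symm, (hall b hb).trans (hall t ht).symm, ?_⟩
    rcases ContinuousOn.strictMonoOn_of_injOn_Icc' hab.le
      (continuous_fst.comp hc).continuousOn hinj with hm | hm
    · exact Or.inl ⟨(hm ha ht hat).le, (hm ht hb htb).le⟩
    · exact Or.inr ⟨(hm ht hb htb).le, (hm ha ht hat).le⟩

/-- no path with at most three break points meets the four squares -/
theorem no_path {f : ℝ → ℝ × ℝ} {s : Finset ℝ} (hc : Continuous f) (hi : Function.Injective f)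
    (hs : s.card ≤ 3)
    (h : ∀ x y : ℝ, (∀ z ∈ s, z ∉ Set.Ioo (min x y) (max x y)) →
          (f x).1 = (f y).1 ∨ (f x).2 = (f y).2)
    (T : Fin 4 → ℝ) (hT : ∀ i, f (T i) ∈ blob i) : False := by
  classical
  have hTinj : Function.Injective T := by
    intro i j e
    by_contra hij
    exact x_ne (hT i) (hT j) hij (by rw [e])
  set σ := Tuple.sort T with hσ
  have hmono : StrictMono (T ∘ σ) :=
    (Tuple.monotone_sort T).strictMono_of_injective (hTinj.comp σ.injective)
  set a := σ 0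
  set b := σ 1
  set c := σ 2
  set d := σ 3
  have hab : a ≠ b := σ.injective.ne (by decide)
  have hac : a ≠ c := σ.injective.ne (by decide)
  have had : a ≠ d := σ.injective.ne (by decide)
  have hbc : b ≠ c := σ.injective.ne (by decide)
  have hbd : b ≠ d := σ.injective.ne (by decide)
  have hcd : c ≠ d := σ.injective.ne (by decide)
  have lab : T a < T b := hmono (show (0 : Fin 4) < 1 by decide)
  have lbc : T b < T c := hmono (show (1 : Fin 4) < 2 by decide)
  have lcd : T c < T d := hmono (show (2 : Fin 4) < 3 by decide)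
  have gap : ∀ i j : Fin 4, i ≠ j → T i < T j → ∃ z ∈ s, T i < z ∧ z < T j := by
    intro i j hij hlt
    by_contra hcon
    push Not at hcon
    have := h (T i) (T j) (by
      intro z hz hz'
      rw [min_eq_left hlt.le, max_eq_right hlt.le] at hz'
      exact absurd hz'.2 (not_lt.mpr (hcon z hz hz'.1)))
    rcases this with e | e
    · exact x_ne (hT i) (hT j) hij e
    · exact y_ne (hT i) (hT j) hij e
  obtain ⟨z1, hz1, l1, r1⟩ := gap a b hab lab
  obtain ⟨z2, hz2, l2, r2⟩ := gap b c hbc lbc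
  obtain ⟨z3, hz3, l3, r3⟩ := gap c d hcd lcd
  have hsub : ({z1, z2, z3} : Finset ℝ) ⊆ s := by
    intro z hz
    simp only [Finset.mem_insert, Finset.mem_singleton] at hz
    rcases hz with rfl | rfl | rfl <;> assumption
  have hcard : ({z1, z2, z3} : Finset ℝ).card = 3 := by
    rw [Finset.card_eq_three]
    exact ⟨z1, z2, z3, (by linarith : z1 < z2).ne, (by linarith : z1 < z3).ne, (by linarith : z2 < z3).ne, rfl⟩
  have hseq : ({z1, z2, z3} : Finset ℝ) = s :=
    Finset.eq_of_subset_of_card_le hsub (by omega)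
  have hmem : ∀ z ∈ s, z = z1 ∨ z = z2 ∨ z = z3 := by
    intro z hz
    rw [← hseq] at hz
    simpa using hz
  have seg : ∀ u v : ℝ, (∀ z ∈ s, z ≤ u ∨ v ≤ z) → ∀ x ∈ Icc u v, ∀ y ∈ Icc u v,
      (f x).1 = (f y).1 ∨ (f x).2 = (f y).2 := by
    intro u v huv x hx y hy
    apply h
    intro z hz hz'
    have h1 : u ≤ min x y := le_min hx.1 hy.1
    have h2 : max x y ≤ v := max_le hx.2 hy.2
    rcases huv z hz with e | e
    · linarith [hz'.1]
    · linarith [hz'.2]
  have s1 := seg (T a) z1 (by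
    intro z hz
    rcases hmem z hz with rfl | rfl | rfl <;> right <;> linarith) (T a) ⟨le_rfl, l1.le⟩ z1 ⟨l1.le, le_rfl⟩
  have s4 := seg z3 (T d) (by
    intro z hz
    rcases hmem z hz with rfl | rfl | rfl <;> left <;> linarith) z3 ⟨le_rfl, r3.le⟩ (T d) ⟨r3.le, le_rfl⟩
  have s2 := piece hc hi r1 l2 (seg z1 z2 (by
    intro z hz
    rcases hmem z hz with rfl | rfl | rfl
    · left; exact le_rfl
    · right; exact le_rfl
    · right; linarith))
  have s3 := piece hc hi r2 l3 (seg z2 z3 (by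
    intro z hz
    rcases hmem z hz with rfl | rfl | rfl
    · left; linarith
    · left; exact le_rfl
    · right; exact le_rfl))
  have key := comb a b c d hab hac had hbc hbd hcd
  have Ha := hT a
  have Hb := hT b
  have Hc := hT c
  have Hd := hT d
  rcases s2 with ⟨e1, e2, m2⟩ | ⟨e1, e2, m2⟩
  · have f1 : (f (T a)).2 = (f z1).2 := by
      rcases s1 with e | e
      · exact absurd (e.trans e1) (x_ne Ha Hb hab)
      · exact e
    rcases s3 with ⟨e3, e4, m3⟩ | ⟨e3, e4, m3⟩
    · exact x_ne Hb Hc hbc (e2.symm.trans e3)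
    · have f4 : (f z3).1 = (f (T d)).1 := by
        rcases s4 with e | e
        · exact e
        · exact absurd (e4.symm.trans e) (y_ne Hc Hd hcd)
      apply key.1
      constructor
      · rcases m2 with ⟨m, m'⟩ | ⟨m, m'⟩
        · exact Or.inl ⟨y_lt Ha Hb hab (by linarith), y_lt Hb Hc hbc (by linarith)⟩
        · exact Or.inr ⟨y_lt Hc Hb hbc.symm (by linarith), y_lt Hb Ha hab.symm (by linarith)⟩
      · rcases m3 with ⟨m, m'⟩ | ⟨m, m'⟩
        · exact Or.inl ⟨x_lt Hb Hc hbc (by linarith), x_lt Hc Hd hcd (by linarith)⟩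
        · exact Or.inr ⟨x_lt Hd Hc hcd.symm (by linarith), x_lt Hc Hb hbc.symm (by linarith)⟩
  · have f1 : (f (T a)).1 = (f z1).1 := by
      rcases s1 with e | e
      · exact e
      · exact absurd (e.trans e1) (y_ne Ha Hb hab)
    rcases s3 with ⟨e3, e4, m3⟩ | ⟨e3, e4, m3⟩
    · have f4 : (f z3).2 = (f (T d)).2 := by
        rcases s4 with e | e
        · exact absurd (e4.symm.trans e) (x_ne Hc Hd hcd)
        · exact e
      apply key.2
      constructor
      · rcases m2 with ⟨m, m'⟩ | ⟨m, m'⟩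
        · exact Or.inl ⟨x_lt Ha Hb hab (by linarith), x_lt Hb Hc hbc (by linarith)⟩
        · exact Or.inr ⟨x_lt Hc Hb hbc.symm (by linarith), x_lt Hb Ha hab.symm (by linarith)⟩
      · rcases m3 with ⟨m, m'⟩ | ⟨m, m'⟩
        · exact Or.inl ⟨y_lt Hb Hc hbc (by linarith), y_lt Hc Hd hcd (by linarith)⟩
        · exact Or.inr ⟨y_lt Hd Hc hcd.symm (by linarith), y_lt Hc Hb hbc.symm (by linarith)⟩
    · exact y_ne Hb Hc hbc (e2.symm.trans e3)

end Pool.Agent.H966Z.Kano
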